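import Pool.Agent.W841.PK.Stm2

/-!
# Project PK: initial counts
-/

set_option autoImplicit false

namespace Pool.Agent.W362.PK.CNT

open W841.PK Finset
open scoped Classical symmDiff

noncomputable section

variable {n : ℕ}

/-- toggle the edge `a b` -/
def tog (a b : Fin n) (G : SimpleGraph (Fin n)) : SimpleGraph (Fin n) :=
  G ∆ SimpleGraph.fromEdgeSet {s(a, b)}

theorem tog_tog (a b : Fin n) (G : SimpleGraph (Fin n)) : tog a b (tog a b G) = G := by
  unfold tog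
  exact symmDiff_symmDiff_cancel_right _ _

theorem tog_adj_eq (a b : Fin n) (hab : a ≠ b) (G : SimpleGraph (Fin n)) :
    (tog a b G).Adj a b ↔ ¬ G.Adj a b := by
  unfold tog
  simp [symmDiff_def, SimpleGraph.sup_adj, SimpleGraph.sdiff_adj, hab]

theorem tog_adj_ne (a b x y : Fin n) (h : s(x, y) ≠ s(a, b)) (G : SimpleGraph (Fin n)) :
    (tog a b G).Adj x y ↔ G.Adj x y := by
  unfold tog
  simp [symmDiff_def, SimpleGraph.sup_adj, SimpleGraph.sdiff_adj, SimpleGraph.fromEdgeSet_adj, h]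

theorem ee_tog (a b : Fin n) (hab : a ≠ b) (G : SimpleGraph (Fin n)) :
    ee (tog a b G) a b = - ee G a b := by
  unfold ee
  rw [if_neg hab, if_neg hab]
  by_cases h : G.Adj a b
  · rw [if_neg (fun h' => (tog_adj_eq a b hab G).1 h' h), if_pos h]
  · rw [if_pos ((tog_adj_eq a b hab G).2 h), if_neg h, neg_neg]

theorem ee_tog_ne (a b x y : Fin n) (h : s(x, y) ≠ s(a, b)) (G : SimpleGraph (Fin n)) :
    ee (tog a b G) x y = ee G x y := by
  unfold ee
  simp only [tog_adj_ne a b x y h G]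

theorem Ex_tog (a b : Fin n) (f : SimpleGraph (Fin n) → ℝ) :
    Ex (fun G => f (tog a b G)) = Ex f := by
  unfold Ex
  congr 1
  exact Fintype.sum_equiv (Function.Involutive.toPerm (tog a b) (tog_tog a b)) _ _
    (fun G => rfl)

/-- smoothed indicator -/
def Q (v z : ℝ) : ℝ := Ph (z / √v)

/-- sum of edges from `a` into `T` -/
def XT (a : Fin n) (T : Finset (Fin n)) (G : SimpleGraph (Fin n)) : ℝ := ∑ b ∈ T, ee G a b

theorem step (a b : Fin n) (hab : a ≠ b) (f : ℝ → ℝ) (X ψ : SimpleGraph (Fin n) → ℝ)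
    (hX : ∀ G, X (tog a b G) = X G) (hψ : ∀ G, ψ (tog a b G) = ψ G) (c y : ℝ) :
    Ex (fun G => f (c * (ee G a b + X G) - y) * ψ G) =
      Ex (fun G => (f (c * X G - y + c) + f (c * X G - y - c)) / 2 * ψ G) := by
  have h1 : Ex (fun G => f (c * (ee G a b + X G) - y) * ψ G) =
      Ex (fun G => f (c * (- ee G a b + X G) - y) * ψ G) := by
    conv_lhs => rw [← Ex_tog a b]
    apply Ex_congr
    intro G
    rw [ee_tog a b hab, hX, hψ]
  have h2 : Ex (fun G => f (c * (ee G a b + X G) - y) * ψ G) =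
      Ex (fun G => (1 / 2) * (f (c * (ee G a b + X G) - y) * ψ G +
        f (c * (- ee G a b + X G) - y) * ψ G)) := by
    rw [Ex_mul_left, Ex_add, ← h1]
    ring
  rw [h2]
  apply Ex_congr
  intro G
  have h3 : ee G a b = 1 ∨ ee G a b = -1 := by
    unfold ee
    rw [if_neg hab]
    by_cases h : G.Adj a b
    · left; rw [if_pos h]
    · right; rw [if_neg h]
  rcases h3 with h3 | h3
  · rw [h3, show c * (1 + X G) - y = c * X G - y + c by ring,
      show c * (-1 + X G) - y = c * X G - y - c by ring]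
    ring
  · rw [h3, show c * (-1 + X G) - y = c * X G - y - c by ring,
      show c * (- -1 + X G) - y = c * X G - y + c by ring]
    ring

/-- Central limit theorem by replacing one edge after the other. -/
theorem L1 {σ C : ℝ} (hC : 0 < C)
    (h4 : ∀ v h κ z : ℝ, σ ^ 2 ≤ v → 0 ≤ h → h ≤ 1 → 0 ≤ κ → κ ≤ 1 →
      |(Ph ((z + h) / √v) + Ph ((z - h) / √v)) / 2 - Ph (z / √(v + κ))| ≤
        C * (h ^ 3 + κ ^ 2 + |κ - h ^ 2|))
    {c : ℝ} (hc0 : 0 ≤ c) (hc1 : c ≤ 1) (y : ℝ) (a : Fin n) (T : Finset (Fin n)) (haT : a ∉ T)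
    (ψ : SimpleGraph (Fin n) → ℝ) (hψ1 : ∀ G, |ψ G| ≤ 1)
    (hψ : ∀ b ∈ T, ∀ G, ψ (tog a b G) = ψ G) :
    ∀ v : ℝ, σ ^ 2 ≤ v →
    |Ex (fun G => Q v (c * XT a T G - y) * ψ G) - Q (v + T.card * c ^ 2) (-y) * Ex ψ| ≤
      T.card * (2 * C * c ^ 3) := by
  induction T using Finset.induction_on with
  | empty =>
    intro v _
    have : (fun G => Q v (c * XT a ∅ G - y) * ψ G) = fun G => Q v (-y) * ψ G := by
      funext G
      simp [XT]
    rw [this, Ex_mul_left]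
    simp
  | insert b T hb ih =>
    intro v hv
    have hab : a ≠ b := fun h => haT (by rw [h]; exact mem_insert_self b T)
    have haT' : a ∉ T := fun h => haT (mem_insert_of_mem h)
    have hX : ∀ G, XT a T (tog a b G) = XT a T G := by
      intro G
      unfold XT
      apply sum_congr rfl
      intro d hd
      apply ee_tog_ne
      intro h
      rw [Sym2.eq_iff] at h
      rcases h with ⟨_, h⟩ | ⟨h, h'⟩
      · exact hb (h ▸ hd)
      · exact hab h
    have h1 : Ex (fun G => Q v (c * XT a (insert b T) G - y) * ψ G) =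
        Ex (fun G => (Q v (c * XT a T G - y + c) + Q v (c * XT a T G - y - c)) / 2 * ψ G) := by
      rw [← step a b hab (Q v) (XT a T) ψ hX (hψ b (mem_insert_self b T)) c y]
      apply Ex_congr
      intro G
      unfold XT
      rw [sum_insert hb]
    have hv2 : σ ^ 2 ≤ v + c ^ 2 := by nlinarith [sq_nonneg c]
    have h2 := ih haT' (fun d hd => hψ d (mem_insert_of_mem hd)) (v + c ^ 2) hv2
    have hc2 : c ^ 2 ≤ 1 := by nlinarith
    have hc3 : c ^ 4 ≤ c ^ 3 := by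
      have : 0 ≤ c ^ 3 := by positivity
      nlinarith
    have h3 : |Ex (fun G => (Q v (c * XT a T G - y + c) + Q v (c * XT a T G - y - c)) / 2 * ψ G) -
        Ex (fun G => Q (v + c ^ 2) (c * XT a T G - y) * ψ G)| ≤ 2 * C * c ^ 3 := by
      rw [← Ex_sub]
      refine (abs_Ex_le _).trans ?_
      rw [← Ex_const (n := n) (2 * C * c ^ 3)]
      apply Ex_mono
      intro G
      rw [← sub_mul, abs_mul]
      have h5 := h4 v c (c ^ 2) (c * XT a T G - y) hv hc0 hc1 (sq_nonneg c) hc2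
      have h6 : |(Q v (c * XT a T G - y + c) + Q v (c * XT a T G - y - c)) / 2 -
          Q (v + c ^ 2) (c * XT a T G - y)| ≤ 2 * C * c ^ 3 := by
        unfold Q
        refine h5.trans ?_
        rw [sub_self, abs_zero]
        nlinarith
      calc _ ≤ (2 * C * c ^ 3) * 1 :=
            mul_le_mul h6 (hψ1 G) (abs_nonneg _) (by positivity)
        _ = _ := by ring
    have hcard : ((insert b T).card : ℝ) = (T.card : ℝ) + 1 := by
      rw [card_insert_of_notMem hb]; push_cast; ring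
    rw [h1, hcard]
    have h7 : v + c ^ 2 + (T.card : ℝ) * c ^ 2 = v + ((T.card : ℝ) + 1) * c ^ 2 := by ring
    rw [h7] at h2
    calc _ ≤ |Ex (fun G => (Q v (c * XT a T G - y + c) + Q v (c * XT a T G - y - c)) / 2 * ψ G) -
        Ex (fun G => Q (v + c ^ 2) (c * XT a T G - y) * ψ G)| +
        |Ex (fun G => Q (v + c ^ 2) (c * XT a T G - y) * ψ G) -
          Q (v + ((T.card : ℝ) + 1) * c ^ 2) (-y) * Ex ψ| := abs_sub_le _ _ _
      _ ≤ 2 * C * c ^ 3 + T.card * (2 * C * c ^ 3) := add_le_add h3 h2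
      _ = _ := by ring

/-- Concentration of a sum of weakly correlated terms. -/
theorem conc (A : Finset (Fin n)) (F : Fin n → SimpleGraph (Fin n) → ℝ) (m δ ε : ℝ)
    (hA : A.Nonempty) (hε : 0 < ε) (hδ : 0 ≤ δ) (hm : 0 ≤ m ∧ m ≤ 1)
    (hF : ∀ a G, 0 ≤ F a G ∧ F a G ≤ 1)
    (h1 : ∀ a ∈ A, |Ex (F a) - m| ≤ δ)
    (h2 : ∀ a ∈ A, ∀ b ∈ A, a ≠ b → |Ex (fun G => F a G * F b G) - m ^ 2| ≤ δ) :
    Pr (fun G => ¬ |∑ a ∈ A, F a G - A.card * m| ≤ ε * A.card) ≤
      (A.card + 3 * δ * (A.card : ℝ) ^ 2) / (ε * A.card) ^ 2 := by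
  have hAc : (0 : ℝ) < A.card := by exact_mod_cast hA.card_pos
  have hl : 0 < ε * A.card := mul_pos hε hAc
  have hs : ∀ G, ∑ a ∈ A, F a G - A.card * m = ∑ a ∈ A, (F a G - m) := by
    intro G
    rw [sum_sub_distrib, sum_const, nsmul_eq_mul]
  have h3 : Pr (fun G => ¬ |∑ a ∈ A, F a G - A.card * m| ≤ ε * A.card) ≤
      Pr (fun G => ε * A.card ≤ |∑ a ∈ A, (F a G - m)|) := by
    apply Pr_mono
    intro G h
    rw [← hs G]
    exact le_of_lt (not_le.mp h)
  refine h3.trans ((Pr_cheb _ _ hl).trans ?_)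
  apply div_le_div_of_nonneg_right _ (by positivity)
  have h4 : Ex (fun G => (∑ a ∈ A, (F a G - m)) ^ 2) =
      ∑ a ∈ A, ∑ b ∈ A, Ex (fun G => (F a G - m) * (F b G - m)) := by
    have : (fun G => (∑ a ∈ A, (F a G - m)) ^ 2) =
        fun G => ∑ a ∈ A, ∑ b ∈ A, (F a G - m) * (F b G - m) := by
      funext G
      rw [sq, sum_mul_sum]
    rw [this, Ex_sum]
    apply sum_congr rfl
    intro a _
    rw [Ex_sum]
  rw [h4]
  have h5 : ∀ a ∈ A, ∀ b ∈ A, Ex (fun G => (F a G - m) * (F b G - m)) ≤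
      (if a = b then 1 else 0) + 3 * δ := by
    intro a ha b hb
    by_cases hab : a = b
    · rw [if_pos hab]
      have : Ex (fun G => (F a G - m) * (F b G - m)) ≤ 1 := by
        rw [← Ex_const (n := n) 1]
        apply Ex_mono
        intro G
        subst hab
        have := hF a G
        nlinarith [hm.1, hm.2]
      linarith
    · rw [if_neg hab]
      have h6 : Ex (fun G => (F a G - m) * (F b G - m)) =
          Ex (fun G => F a G * F b G) - m * Ex (F a) - m * Ex (F b) + m ^ 2 := by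
        have : (fun G => (F a G - m) * (F b G - m)) =
            fun G => ((F a G * F b G - m * F a G) - m * F b G) + m ^ 2 := by
          funext G; ring
        rw [this, Ex_add, Ex_sub, Ex_sub, Ex_mul_left, Ex_mul_left, Ex_const]
      rw [h6]
      have e1 := abs_le.mp (h2 a ha b hb hab)
      have e2 := abs_le.mp (h1 a ha)
      have e3 := abs_le.mp (h1 b hb)
      nlinarith [mul_le_mul_of_nonneg_left e2.1 hm.1, mul_le_mul_of_nonneg_left e3.1 hm.1,
        mul_le_mul_of_nonneg_right hm.2 hδ]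
  calc ∑ a ∈ A, ∑ b ∈ A, Ex (fun G => (F a G - m) * (F b G - m))
      ≤ ∑ a ∈ A, ∑ b ∈ A, ((if a = b then 1 else 0) + 3 * δ) :=
        sum_le_sum fun a ha => sum_le_sum fun b hb => h5 a ha b hb
    _ = A.card + 3 * δ * (A.card : ℝ) ^ 2 := by
        have : ∀ a ∈ A, ∑ b ∈ A, (((if a = b then 1 else 0) : ℝ) + 3 * δ) =
            1 + A.card * (3 * δ) := by
          intro a ha
          rw [sum_add_distrib, sum_ite_eq, if_pos ha, sum_const, nsmul_eq_mul]
        rw [sum_congr rfl this, sum_const, nsmul_eq_mul]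
        ring

theorem L1s {σ C : ℝ} (hC : 0 < C)
    (h4 : ∀ v h κ z : ℝ, σ ^ 2 ≤ v → 0 ≤ h → h ≤ 1 → 0 ≤ κ → κ ≤ 1 →
      |(Ph ((z + h) / √v) + Ph ((z - h) / √v)) / 2 - Ph (z / √(v + κ))| ≤
        C * (h ^ 3 + κ ^ 2 + |κ - h ^ 2|))
    {c : ℝ} (hc0 : 0 ≤ c) (hc1 : c ≤ 1) (y : ℝ) (a : Fin n) (T : Finset (Fin n)) (haT : a ∉ T)
    (v : ℝ) (hv : σ ^ 2 ≤ v) :
    |Ex (fun G => Q v (c * XT a T G - y)) - Q (v + T.card * c ^ 2) (-y)| ≤
      T.card * (2 * C * c ^ 3) := by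
  have h := L1 hC h4 hc0 hc1 y a T haT (fun _ => 1) (fun _ => by simp) (fun _ _ _ => rfl) v hv
  rw [Ex_const] at h
  simpa using h

theorem L2 {σ C : ℝ} (hC : 0 < C)
    (h4 : ∀ v h κ z : ℝ, σ ^ 2 ≤ v → 0 ≤ h → h ≤ 1 → 0 ≤ κ → κ ≤ 1 →
      |(Ph ((z + h) / √v) + Ph ((z - h) / √v)) / 2 - Ph (z / √(v + κ))| ≤
        C * (h ^ 3 + κ ^ 2 + |κ - h ^ 2|))
    (hPh : ∀ x, 0 < Ph x ∧ Ph x < 1)
    {c : ℝ} (hc0 : 0 ≤ c) (hc1 : c ≤ 1) (y : ℝ) (a a' : Fin n) (haa : a ≠ a')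
    (T : Finset (Fin n)) (haT : a ∉ T) (haT' : a' ∉ T) (v : ℝ) (hv : σ ^ 2 ≤ v) :
    |Ex (fun G => Q v (c * XT a T G - y) * Q v (c * XT a' T G - y)) -
      Q (v + T.card * c ^ 2) (-y) * Q (v + T.card * c ^ 2) (-y)| ≤
      2 * (T.card * (2 * C * c ^ 3)) := by
  have h1 := L1 hC h4 hc0 hc1 y a T haT (fun G => Q v (c * XT a' T G - y))
    (fun G => by
      unfold Q
      rw [abs_of_pos (hPh _).1]
      exact (hPh _).2.le)
    (fun b hb G => by
      have : XT a' T (tog a b G) = XT a' T G := by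
        unfold XT
        apply sum_congr rfl
        intro d hd
        apply ee_tog_ne
        intro h
        rw [Sym2.eq_iff] at h
        rcases h with ⟨h, _⟩ | ⟨_, h'⟩
        · exact haa h.symm
        · exact haT (h' ▸ hd)
      simp only [this]) v hv
  have h2 := L1s hC h4 hc0 hc1 y a' T haT' v hv
  have h3 : |Q (v + T.card * c ^ 2) (-y) * Ex (fun G => Q v (c * XT a' T G - y)) -
      Q (v + T.card * c ^ 2) (-y) * Q (v + T.card * c ^ 2) (-y)| ≤ T.card * (2 * C * c ^ 3) := by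
    rw [← mul_sub, abs_mul]
    have h5 : |Q (v + T.card * c ^ 2) (-y)| ≤ 1 := by
      unfold Q
      rw [abs_of_pos (hPh _).1]
      exact (hPh _).2.le
    calc _ ≤ 1 * (T.card * (2 * C * c ^ 3)) :=
          mul_le_mul h5 h2 (abs_nonneg _) zero_le_one
      _ = _ := one_mul _
  calc _ ≤ _ := abs_sub_le _ (Q (v + T.card * c ^ 2) (-y) *
        Ex (fun G => Q v (c * XT a' T G - y))) _
    _ ≤ T.card * (2 * C * c ^ 3) + T.card * (2 * C * c ^ 3) := add_le_add h1 h3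
    _ = _ := by ring

/-- the scale -/
def cn (n : ℕ) : ℝ := √(n : ℝ) / ((n - Nat.sqrt n : ℕ) : ℝ)

theorem facts (n : ℕ) (hn : 64 ≤ n) :
    8 ≤ √(n : ℝ) ∧ (Nat.sqrt n : ℝ) ≤ √(n : ℝ) ∧ √(n : ℝ) - 1 ≤ (Nat.sqrt n : ℝ) ∧
    ((n - Nat.sqrt n : ℕ) : ℝ) = (n : ℝ) - Nat.sqrt n ∧
    0 ≤ cn n ∧ cn n ≤ 2 / √(n : ℝ) ∧ cn n ≤ 1 ∧
    ∀ t : ℕ, n - Nat.sqrt n ≤ t → t ≤ n →
      1 ≤ t * cn n ^ 2 ∧ t * cn n ^ 2 ≤ 1 + 8 / √(n : ℝ) ∧ t * cn n ^ 3 ≤ 8 / √(n : ℝ) := by
  have hs8 : 8 ≤ √(n : ℝ) := by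
    apply Real.le_sqrt_of_sq_le
    have : (64 : ℝ) ≤ n := by exact_mod_cast hn
    linarith
  have hsq : √(n : ℝ) ^ 2 = n := Real.sq_sqrt (Nat.cast_nonneg n)
  have hk1 : (Nat.sqrt n : ℝ) ≤ √(n : ℝ) := Real.nat_sqrt_le_real_sqrt
  have hk2 : √(n : ℝ) - 1 ≤ (Nat.sqrt n : ℝ) := by
    have := Real.real_sqrt_le_nat_sqrt_succ (a := n)
    linarith
  have hkn : Nat.sqrt n ≤ n := Nat.sqrt_le_self n
  have hsub : ((n - Nat.sqrt n : ℕ) : ℝ) = (n : ℝ) - Nat.sqrt n := by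
    rw [Nat.cast_sub hkn]
  set s := √(n : ℝ) with hs
  set k : ℝ := (Nat.sqrt n : ℝ) with hk
  have hspos : 0 < s := by linarith
  have hk0 : 0 ≤ k := Nat.cast_nonneg _
  have hd : s * (s - 1) ≤ (n : ℝ) - k := by nlinarith
  have hd2 : s ^ 2 / 2 ≤ (n : ℝ) - k := by nlinarith
  have hdpos : 0 < (n : ℝ) - k := by nlinarith
  have hc : cn n = s / ((n : ℝ) - k) := by
    unfold cn
    rw [hsub]
  have hc0 : 0 ≤ cn n := by rw [hc]; positivity
  have hc2 : cn n ≤ 2 / s := by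
    rw [hc, div_le_div_iff₀ hdpos hspos]
    nlinarith
  refine ⟨hs8, hk1, hk2, hsub, hc0, hc2, hc2.trans ?_, ?_⟩
  · rw [div_le_one hspos]; linarith
  · intro t ht1 ht2
    have ht1' : (n : ℝ) - k ≤ t := by
      rw [← hsub]; exact_mod_cast ht1
    have ht2' : (t : ℝ) ≤ n := by exact_mod_cast ht2
    have ht0 : (0 : ℝ) ≤ t := Nat.cast_nonneg t
    refine ⟨?_, ?_, ?_⟩
    · rw [hc, div_pow, mul_div_assoc', le_div_iff₀ (by positivity), hsq]
      nlinarith
    · have e1 : t * cn n ^ 2 ≤ n * (s / (s * (s - 1))) ^ 2 := by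
        apply mul_le_mul ht2' _ (by positivity) (Nat.cast_nonneg n)
        apply pow_le_pow_left₀ hc0
        rw [hc]
        apply div_le_div_of_nonneg_left hspos.le _ hd
        nlinarith
      refine e1.trans ?_
      rw [← hsq]
      have hs1 : 0 < s - 1 := by linarith
      have : s ^ 2 * (s / (s * (s - 1))) ^ 2 = s ^ 2 / (s - 1) ^ 2 := by
        field_simp
      rw [this, div_le_iff₀ (by positivity)]
      have h9 : 1 + 8 / s = (s + 8) / s := by field_simp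
      rw [h9, div_mul_eq_mul_div, le_div_iff₀ hspos]
      nlinarith [mul_nonneg hspos.le (by linarith : (0 : ℝ) ≤ s - 8)]
    · have e1 : t * cn n ^ 3 ≤ n * (2 / s) ^ 3 :=
        mul_le_mul ht2' (pow_le_pow_left₀ hc0 hc2 3) (by positivity) (Nat.cast_nonneg n)
      refine e1.trans (le_of_eq ?_)
      rw [← hsq]
      field_simp
      norm_num

theorem Xs_planted (S : Finset (Fin n)) (ρ : Rule n) (G : SimpleGraph (Fin n)) (a : Fin n)
    (ha : a ∈ S) : Xs S ρ 0 G a = XT a (univ \ S) G := by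
  unfold Xs
  rw [if_pos ha]
  rfl

theorem Xs_free (S : Finset (Fin n)) (ρ : Rule n) (G : SimpleGraph (Fin n)) (a : Fin n)
    (ha : a ∉ S) : Xs S ρ 0 G a = XT a (univ.erase a) G := by
  unfold Xs
  rw [if_neg ha]
  have h1 : Xn S ρ 0 G a = ∑ b ∈ univ \ S, ee G a b := rfl
  rw [h1, sum_sdiff (subset_univ S)]
  unfold XT
  rw [← add_sum_erase univ _ (mem_univ a), ee_self, zero_add]

/-- the group of planted (`true`) or of other (`false`) vertices -/
def grp (b : Bool) (S : Finset (Fin n)) : Finset (Fin n) := if b then S else univ \ S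

theorem moments (hG : S_Gauss) {σ C : ℝ} (hC : 0 < C)
    (h1 : ∀ v, σ ^ 2 ≤ v → ∀ z, HasDerivAt (fun z => Ph (z / √v)) (gd (z / √v) / √v) z)
    (h2 : ∀ v, σ ^ 2 ≤ v → ∀ z, |gd (z / √v) / √v| ≤ C)
    (h4 : ∀ v h κ z : ℝ, σ ^ 2 ≤ v → 0 ≤ h → h ≤ 1 → 0 ≤ κ → κ ≤ 1 →
      |(Ph ((z + h) / √v) + Ph ((z - h) / √v)) / 2 - Ph (z / √(v + κ))| ≤
        C * (h ^ 3 + κ ^ 2 + |κ - h ^ 2|))
    (hn : 64 ≤ n) (S : Finset (Fin n)) (ρ : Rule n) (hS : S.card = Nat.sqrt n) (b : Bool) (y : ℝ) :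
    (∀ a ∈ grp b S, |Ex (fun G => Q (σ ^ 2) (cn n * Xs S ρ 0 G a - y)) - Q (σ ^ 2 + 1) (-y)| ≤
      100 * C / √(n : ℝ)) ∧
    (∀ a ∈ grp b S, ∀ a' ∈ grp b S, a ≠ a' →
      |Ex (fun G => Q (σ ^ 2) (cn n * Xs S ρ 0 G a - y) * Q (σ ^ 2) (cn n * Xs S ρ 0 G a' - y)) -
        Q (σ ^ 2 + 1) (-y) ^ 2| ≤ 100 * C / √(n : ℝ)) := by
  obtain ⟨hs8, hk1, hk2, hsub, hc0, hc2, hc1, ht⟩ := facts n hn
  have hPh : ∀ x, 0 < Ph x ∧ Ph x < 1 := hG.2.2.2.2.1
  have hspos : 0 < √(n : ℝ) := by linarith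
  have hkn : Nat.sqrt n ≤ n := Nat.sqrt_le_self n
  have hk2' : 2 ≤ Nat.sqrt n := by
    have : (2 : ℝ) ≤ Nat.sqrt n := by linarith
    exact_mod_cast this
  -- comparison of the variances
  have hvar : ∀ T : Finset (Fin n), n - Nat.sqrt n ≤ T.card →
      |Q (σ ^ 2 + T.card * cn n ^ 2) (-y) - Q (σ ^ 2 + 1) (-y)| ≤ 16 * C / √(n : ℝ) := by
    intro T hT
    have hTn : T.card ≤ n := by
      have := card_le_univ T
      simpa using this
    obtain ⟨a1, a2, _⟩ := ht T.card hT hTn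
    have hκ1 : 8 / √(n : ℝ) ≤ 1 := by rw [div_le_one hspos]; exact hs8
    have h5 := h4 (σ ^ 2 + 1) 0 (T.card * cn n ^ 2 - 1) (-y) (by linarith) le_rfl zero_le_one
      (by linarith) (by linarith)
    have h6 : |Q (σ ^ 2 + T.card * cn n ^ 2) (-y) - Q (σ ^ 2 + 1) (-y)| ≤
        C * (0 ^ 3 + (T.card * cn n ^ 2 - 1) ^ 2 + |(T.card * cn n ^ 2 - 1) - 0 ^ 2|) := by
      rw [abs_sub_comm]
      unfold Q
      have e1 : σ ^ 2 + T.card * cn n ^ 2 = σ ^ 2 + 1 + (T.card * cn n ^ 2 - 1) := by ring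
      rw [e1]
      refine le_trans (le_of_eq ?_) h5
      rw [add_zero, sub_zero]
      congr 2
      ring
    refine h6.trans ?_
    have h7 : |(T.card * cn n ^ 2 - 1) - 0 ^ 2| = T.card * cn n ^ 2 - 1 := by
      rw [abs_of_nonneg] <;> nlinarith
    rw [h7]
    set κ := (T.card : ℝ) * cn n ^ 2 - 1 with hκ
    have hk0 : 0 ≤ κ := by linarith
    have hk8 : κ ≤ 8 / √(n : ℝ) := by linarith
    have h8 : 0 ^ 3 + κ ^ 2 + κ ≤ 16 / √(n : ℝ) := by
      have : κ ^ 2 ≤ κ := by nlinarith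
      have e2 : 16 / √(n : ℝ) = 2 * (8 / √(n : ℝ)) := by ring
      rw [e2]
      linarith [this, hk8]
    calc C * (0 ^ 3 + κ ^ 2 + κ) ≤ C * (16 / √(n : ℝ)) := mul_le_mul_of_nonneg_left h8 hC.le
      _ = _ := by ring
  have hQ1 : ∀ v z, |Q v z| ≤ 1 := by
    intro v z
    unfold Q
    rw [abs_of_pos (hPh _).1]
    exact (hPh _).2.le
  have herr : ∀ T : Finset (Fin n), n - Nat.sqrt n ≤ T.card →
      (T.card : ℝ) * (2 * C * cn n ^ 3) ≤ 16 * C / √(n : ℝ) := by
    intro T hT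
    have hTn : T.card ≤ n := by
      have := card_le_univ T
      simpa using this
    obtain ⟨_, _, a3⟩ := ht T.card hT hTn
    calc (T.card : ℝ) * (2 * C * cn n ^ 3) = 2 * C * (T.card * cn n ^ 3) := by ring
      _ ≤ 2 * C * (8 / √(n : ℝ)) := mul_le_mul_of_nonneg_left a3 (by positivity)
      _ = _ := by ring
  have single : ∀ a : Fin n, ∀ T : Finset (Fin n), a ∉ T → n - Nat.sqrt n ≤ T.card →
      |Ex (fun G => Q (σ ^ 2) (cn n * XT a T G - y)) - Q (σ ^ 2 + 1) (-y)| ≤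
        32 * C / √(n : ℝ) := by
    intro a T haT hT
    have e1 := L1s hC h4 hc0 hc1 y a T haT (σ ^ 2) le_rfl
    have e2 := hvar T hT
    have e3 := herr T hT
    calc _ ≤ _ := abs_sub_le _ (Q (σ ^ 2 + T.card * cn n ^ 2) (-y)) _
      _ ≤ 16 * C / √(n : ℝ) + 16 * C / √(n : ℝ) := add_le_add (e1.trans e3) e2
      _ = _ := by ring
  have double : ∀ a a' : Fin n, a ≠ a' → ∀ T : Finset (Fin n), a ∉ T → a' ∉ T →
      n - Nat.sqrt n ≤ T.card + 0 →
      |Ex (fun G => Q (σ ^ 2) (cn n * XT a T G - y) * Q (σ ^ 2) (cn n * XT a' T G - y)) -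
        Q (σ ^ 2 + 1) (-y) ^ 2| ≤ 64 * C / √(n : ℝ) := by
    intro a a' haa T haT haT' hT
    have e1 := L2 hC h4 hPh hc0 hc1 y a a' haa T haT haT' (σ ^ 2) le_rfl
    have e2 := hvar T hT
    have e3 := herr T hT
    have e4 : |Q (σ ^ 2 + T.card * cn n ^ 2) (-y) * Q (σ ^ 2 + T.card * cn n ^ 2) (-y) -
        Q (σ ^ 2 + 1) (-y) ^ 2| ≤ 2 * (16 * C / √(n : ℝ)) := by
      have e5 : Q (σ ^ 2 + T.card * cn n ^ 2) (-y) * Q (σ ^ 2 + T.card * cn n ^ 2) (-y) -
        Q (σ ^ 2 + 1) (-y) ^ 2 = (Q (σ ^ 2 + T.card * cn n ^ 2) (-y) + Q (σ ^ 2 + 1) (-y)) *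
          (Q (σ ^ 2 + T.card * cn n ^ 2) (-y) - Q (σ ^ 2 + 1) (-y)) := by ring
      rw [e5, abs_mul]
      apply mul_le_mul _ e2 (abs_nonneg _) (by norm_num)
      have f1 := hQ1 (σ ^ 2 + T.card * cn n ^ 2) (-y)
      have f2 := hQ1 (σ ^ 2 + 1) (-y)
      exact (abs_add_le _ _).trans (by linarith)
    calc _ ≤ _ := abs_sub_le _ (Q (σ ^ 2 + T.card * cn n ^ 2) (-y) *
          Q (σ ^ 2 + T.card * cn n ^ 2) (-y)) _
      _ ≤ 2 * (16 * C / √(n : ℝ)) + 2 * (16 * C / √(n : ℝ)) :=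
        add_le_add (e1.trans (mul_le_mul_of_nonneg_left e3 (by norm_num))) e4
      _ = _ := by ring
  have hle : 32 * C / √(n : ℝ) ≤ 100 * C / √(n : ℝ) := by
    apply div_le_div_of_nonneg_right _ hspos.le
    linarith
  have hle2 : 64 * C / √(n : ℝ) ≤ 100 * C / √(n : ℝ) := by
    apply div_le_div_of_nonneg_right _ hspos.le
    linarith
  have hScard : (univ \ S).card = n - Nat.sqrt n := by
    rw [card_sdiff_of_subset (subset_univ S), hS, card_univ, Fintype.card_fin]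
  cases b with
  | true =>
    have hgr : grp true S = S := rfl
    rw [hgr]
    refine ⟨fun a ha => ?_, fun a ha a' ha' haa => ?_⟩
    · have e1 : (fun G => Q (σ ^ 2) (cn n * Xs S ρ 0 G a - y)) =
          fun G => Q (σ ^ 2) (cn n * XT a (univ \ S) G - y) := by
        funext G; rw [Xs_planted S ρ G a ha]
      rw [e1]
      exact (single a (univ \ S) (by simp [ha]) hScard.ge).trans hle
    · have e1 : (fun G => Q (σ ^ 2) (cn n * Xs S ρ 0 G a - y) *
            Q (σ ^ 2) (cn n * Xs S ρ 0 G a' - y)) =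
          fun G => Q (σ ^ 2) (cn n * XT a (univ \ S) G - y) *
            Q (σ ^ 2) (cn n * XT a' (univ \ S) G - y) := by
        funext G; rw [Xs_planted S ρ G a ha, Xs_planted S ρ G a' ha']
      rw [e1]
      exact (double a a' haa (univ \ S) (by simp [ha]) (by simp [ha']) hScard.ge).trans hle2
  | false =>
    have hgr : grp false S = univ \ S := rfl
    rw [hgr]
    refine ⟨fun a ha => ?_, fun a ha a' ha' haa => ?_⟩
    · have ha0 : a ∉ S := (mem_sdiff.mp ha).2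
      have e1 : (fun G => Q (σ ^ 2) (cn n * Xs S ρ 0 G a - y)) =
          fun G => Q (σ ^ 2) (cn n * XT a (univ.erase a) G - y) := by
        funext G; rw [Xs_free S ρ G a ha0]
      rw [e1]
      refine (single a (univ.erase a) (by simp) ?_).trans hle
      rw [card_erase_of_mem (mem_univ a), card_univ, Fintype.card_fin]
      omega
    · have ha0 : a ∉ S := (mem_sdiff.mp ha).2
      have ha0' : a' ∉ S := (mem_sdiff.mp ha').2
      set T : Finset (Fin n) := (univ.erase a).erase a' with hT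
      have hTc : T.card = n - 2 := by
        rw [hT, card_erase_of_mem (by simp [haa.symm]), card_erase_of_mem (mem_univ a), card_univ,
          Fintype.card_fin]
        omega
      have e0 : ∀ G, Xs S ρ 0 G a = XT a T G + ee G a a' := by
        intro G
        rw [Xs_free S ρ G a ha0]
        unfold XT
        rw [← add_sum_erase (univ.erase a) (fun b => ee G a b) (by simp [haa.symm] : a' ∈ univ.erase a)]
        ring
      have e0' : ∀ G, Xs S ρ 0 G a' = XT a' T G + ee G a' a := by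
        intro G
        rw [Xs_free S ρ G a' ha0']
        unfold XT
        rw [← add_sum_erase (univ.erase a') (fun b => ee G a' b) (by simp [haa] : a ∈ univ.erase a')]
        rw [hT, erase_right_comm]
        ring
      have hlip : ∀ x x' : ℝ, |Q (σ ^ 2) x - Q (σ ^ 2) x'| ≤ C * |x - x'| := by
        intro x x'
        have := Convex.norm_image_sub_le_of_norm_hasDerivWithin_le (s := Set.univ)
          (f := fun z => Ph (z / √(σ ^ 2))) (f' := fun z => gd (z / √(σ ^ 2)) / √(σ ^ 2))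
          (C := C) (x := x') (y := x)
          (fun z _ => (h1 (σ ^ 2) le_rfl z).hasDerivWithinAt)
          (fun z _ => by rw [Real.norm_eq_abs]; exact h2 (σ ^ 2) le_rfl z) convex_univ
          (Set.mem_univ _) (Set.mem_univ _)
        simpa [Q, Real.norm_eq_abs] using this
      have hcs : cn n ≤ 2 / √(n : ℝ) := hc2
      have hd : ∀ (G : SimpleGraph (Fin n)) (u : ℝ) (p q : Fin n),
          |Q (σ ^ 2) (cn n * (u + ee G p q) - y) - Q (σ ^ 2) (cn n * u - y)| ≤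
            2 * C / √(n : ℝ) := by
        intro G u p q
        refine (hlip _ _).trans ?_
        have : cn n * (u + ee G p q) - y - (cn n * u - y) = cn n * ee G p q := by ring
        rw [this, abs_mul, abs_of_nonneg hc0]
        calc C * (cn n * |ee G p q|) ≤ C * ((2 / √(n : ℝ)) * 1) := by
              apply mul_le_mul_of_nonneg_left _ hC.le
              exact mul_le_mul hcs (abs_ee_le G p q) (abs_nonneg _) (by positivity)
          _ = _ := by ring
      have e2 : |Ex (fun G => Q (σ ^ 2) (cn n * Xs S ρ 0 G a - y) *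
            Q (σ ^ 2) (cn n * Xs S ρ 0 G a' - y)) -
          Ex (fun G => Q (σ ^ 2) (cn n * XT a T G - y) * Q (σ ^ 2) (cn n * XT a' T G - y))| ≤
          4 * C / √(n : ℝ) := by
        rw [← Ex_sub]
        refine (abs_Ex_le _).trans ?_
        rw [← Ex_const (n := n) (4 * C / √(n : ℝ))]
        apply Ex_mono
        intro G
        rw [e0 G, e0' G]
        have d1 := hd G (XT a T G) a a'
        have d2 := hd G (XT a' T G) a' a
        generalize Q (σ ^ 2) (cn n * (XT a T G + ee G a a') - y) = A1 at *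
        have b2 := hQ1 (σ ^ 2) (cn n * (XT a' T G + ee G a' a) - y)
        generalize Q (σ ^ 2) (cn n * (XT a' T G + ee G a' a) - y) = A2 at *
        have b1 := hQ1 (σ ^ 2) (cn n * XT a T G - y)
        generalize Q (σ ^ 2) (cn n * XT a T G - y) = B1 at *
        generalize Q (σ ^ 2) (cn n * XT a' T G - y) = B2 at *
        have : A1 * A2 - B1 * B2 = (A1 - B1) * A2 + B1 * (A2 - B2) := by ring
        rw [this]
        calc |(A1 - B1) * A2 + B1 * (A2 - B2)| ≤ |(A1 - B1) * A2| + |B1 * (A2 - B2)| :=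
              abs_add_le _ _
          _ ≤ (2 * C / √(n : ℝ)) * 1 + 1 * (2 * C / √(n : ℝ)) := by
              rw [abs_mul, abs_mul]
              apply add_le_add
              · exact mul_le_mul d1 b2 (abs_nonneg _) (by positivity)
              · exact mul_le_mul b1 d2 (abs_nonneg _) zero_le_one
          _ = _ := by ring
      have e3 := double a a' haa T (by simp [hT]) (by simp [hT]) (by rw [hTc]; omega)
      calc _ ≤ _ := abs_sub_le _ (Ex (fun G => Q (σ ^ 2) (cn n * XT a T G - y) *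
            Q (σ ^ 2) (cn n * XT a' T G - y))) _
        _ ≤ 4 * C / √(n : ℝ) + 64 * C / √(n : ℝ) := add_le_add e2 e3
        _ = 68 * C / √(n : ℝ) := by ring
        _ ≤ _ := by
            apply div_le_div_of_nonneg_right _ hspos.le
            linarith

theorem grp_card (n : ℕ) (hn : 64 ≤ n) (S : Finset (Fin n)) (hS : S.card = Nat.sqrt n)
    (b : Bool) : √(n : ℝ) / 2 ≤ (grp b S).card := by
  obtain ⟨hs8, hk1, hk2, hsub, _⟩ := facts n hn
  have hsq : √(n : ℝ) ^ 2 = n := Real.sq_sqrt (Nat.cast_nonneg n)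
  cases b with
  | true =>
    have hgr : grp true S = S := rfl
    rw [hgr, hS]
    linarith
  | false =>
    have hgr : grp false S = univ \ S := rfl
    have hScard : (univ \ S).card = n - Nat.sqrt n := by
      rw [card_sdiff_of_subset (subset_univ S), hS, card_univ, Fintype.card_fin]
    rw [hgr, hScard, hsub]
    nlinarith

/-- The smoothed counts are concentrated. -/
theorem whp_smooth (hG : S_Gauss) (hGS : S_GStep) (σ : ℝ) (hσ : 0 < σ) (b : Bool) (y ε : ℝ)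
    (hε : 0 < ε) : Whp (fun n S ρ G =>
      |∑ a ∈ grp b S, Ph ((cn n * Xs S ρ 0 G a - y) / σ) -
        (grp b S).card * Ph (-y / √(σ ^ 2 + 1))| ≤ ε * (grp b S).card) := by
  obtain ⟨C, hC, h1, h2, _, h4⟩ := hGS σ hσ
  intro η hη
  obtain ⟨N, hN⟩ := exists_nat_gt (((2 + 600 * C) / (ε ^ 2 * η)) ^ 2)
  refine ⟨max N 64, fun n hn S ρ hS _ => ?_⟩
  have hnN : N ≤ n := (le_max_left _ _).trans hn
  have hn64 : 64 ≤ n := (le_max_right _ _).trans hn
  have hPh : ∀ x, 0 < Ph x ∧ Ph x < 1 := hG.2.2.2.2.1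
  obtain ⟨m1, m2⟩ := moments hG hC h1 h2 h4 hn64 S ρ hS b y
  have hcard := grp_card n hn64 S hS b
  have hs8 := (facts n hn64).1
  have hspos : 0 < √(n : ℝ) := by linarith
  have hApos : (0 : ℝ) < (grp b S).card := by linarith
  have hne : (grp b S).Nonempty := by
    rw [← card_pos]
    exact_mod_cast hApos
  have h5 := conc (grp b S) (fun a G => Q (σ ^ 2) (cn n * Xs S ρ 0 G a - y)) (Q (σ ^ 2 + 1) (-y))
    (100 * C / √(n : ℝ)) ε hne hε (by positivity) ⟨(hPh _).1.le, (hPh _).2.le⟩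
    (fun a G => ⟨(hPh _).1.le, (hPh _).2.le⟩) m1 m2
  have hsσ : √(σ ^ 2) = σ := Real.sqrt_sq hσ.le
  have e1 : (fun G => ¬ |∑ a ∈ grp b S, Ph ((cn n * Xs S ρ 0 G a - y) / σ) -
        (grp b S).card * Ph (-y / √(σ ^ 2 + 1))| ≤ ε * (grp b S).card) =
      (fun G => ¬ |∑ a ∈ grp b S, Q (σ ^ 2) (cn n * Xs S ρ 0 G a - y) -
        (grp b S).card * Q (σ ^ 2 + 1) (-y)| ≤ ε * (grp b S).card) := by
    funext G
    unfold Q
    rw [hsσ]
  show Pr (fun G => ¬ |∑ a ∈ grp b S, Ph ((cn n * Xs S ρ 0 G a - y) / σ) -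
        (grp b S).card * Ph (-y / √(σ ^ 2 + 1))| ≤ ε * (grp b S).card) ≤ η
  rw [e1]
  refine h5.trans ?_
  have hsN : (2 + 600 * C) / (ε ^ 2 * η) ≤ √(n : ℝ) := by
    apply Real.le_sqrt_of_sq_le
    exact hN.le.trans (by exact_mod_cast hnN)
  rw [div_le_iff₀ (by positivity)] at hsN
  rw [div_le_iff₀ (by positivity)]
  set A : ℝ := ((grp b S).card : ℝ) with hA
  set s := √(n : ℝ) with hs
  have h6 : A + 3 * (100 * C / s) * A ^ 2 ≤ (2 + 600 * C) / s * A ^ 2 := by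
    have : A ≤ 2 / s * A ^ 2 := by
      rw [div_mul_eq_mul_div, le_div_iff₀ hspos]
      nlinarith
    have e2 : (2 + 600 * C) / s * A ^ 2 = 2 / s * A ^ 2 + 6 * (100 * C / s) * A ^ 2 := by
      field_simp
      ring
    rw [e2]
    have : 0 ≤ (100 * C / s) * A ^ 2 := by positivity
    nlinarith
  refine h6.trans ?_
  rw [div_mul_eq_mul_div, div_le_iff₀ hspos]
  calc (2 + 600 * C) * A ^ 2 ≤ (s * (ε ^ 2 * η)) * A ^ 2 :=
        mul_le_mul_of_nonneg_right hsN (by positivity)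
    _ = η * (ε * A) ^ 2 * s := by ring

/-- Sandwich between smoothed counts. -/
theorem sandwich (hG : S_Gauss) {σ δ : ℝ} (hσ : 0 < σ) (y x : ℝ) :
    Ph ((x - (y + δ)) / σ) - Ph (-(δ / σ)) ≤ (if y ≤ x then 1 else 0) ∧
    ((if y ≤ x then 1 else 0 : ℝ)) ≤ Ph ((x - (y - δ)) / σ) + Ph (-(δ / σ)) := by
  obtain ⟨_, _, hneg, hmono, hPh, _⟩ := hG
  by_cases h : y ≤ x
  · rw [if_pos h]
    refine ⟨by linarith [(hPh ((x - (y + δ)) / σ)).2, (hPh (-(δ / σ))).1], ?_⟩
    rw [hneg (δ / σ)]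
    have : Ph (δ / σ) ≤ Ph ((x - (y - δ)) / σ) := by
      apply hmono
      apply div_le_div_of_nonneg_right _ hσ.le
      linarith
    linarith
  · rw [if_neg h]
    have h' : x < y := not_le.mp h
    refine ⟨?_, by linarith [(hPh ((x - (y - δ)) / σ)).1, (hPh (-(δ / σ))).1]⟩
    have : Ph ((x - (y + δ)) / σ) ≤ Ph (-(δ / σ)) := by
      apply hmono
      rw [← neg_div]
      apply div_le_div_of_nonneg_right _ hσ.le
      linarith
    linarith

theorem Ph_lip (hG : S_Gauss) (x y : ℝ) : |Ph x - Ph y| ≤ 2 / 5 * |x - y| := by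
  have := Convex.norm_image_sub_le_of_norm_hasDerivWithin_le (s := Set.univ)
    (f := Ph) (f' := gd) (C := 2 / 5) (x := y) (y := x)
    (fun z _ => (hG.1 z).hasDerivWithinAt)
    (fun z _ => by
      rw [Real.norm_eq_abs, abs_of_pos (hG.2.1 z).1]
      exact (hG.2.1 z).2) convex_univ
    (Set.mem_univ _) (Set.mem_univ _)
  simpa [Real.norm_eq_abs] using this

/-- The counts of one group. -/
theorem whp_count (hG : S_Gauss) (hGS : S_GStep) (b : Bool) (y ε : ℝ)
    (hε : 0 < ε) : Whp (fun n S ρ G =>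
      |(((grp b S).filter (fun a => y ≤ cn n * Xs S ρ 0 G a)).card : ℝ) -
        (grp b S).card * Ph (-y)| ≤ ε * (grp b S).card) := by
  -- choice of the parameters
  obtain ⟨L, hL0, hL⟩ : ∃ L : ℝ, 0 < L ∧ Ph (-L) ≤ ε / 8 := by
    have h1 : ∀ᶠ x in Filter.atBot, Ph x < ε / 8 :=
      (hG.2.2.2.2.2.2.1).eventually (gt_mem_nhds (by linarith))
    obtain ⟨x0, hx0⟩ := Filter.eventually_atBot.mp h1
    refine ⟨max 1 (-x0), lt_of_lt_of_le one_pos (le_max_left _ _), ?_⟩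
    apply (hx0 _ _).le
    have := le_max_right 1 (-x0)
    linarith
  set δ := ε / 8 with hδ
  have hδ0 : 0 < δ := by positivity
  set σ := min (δ / L) (min 1 (ε / (8 * (|y| + 1)))) with hσdef
  have hσ : 0 < σ := by
    apply lt_min (by positivity)
    apply lt_min one_pos
    positivity
  have hσL : L ≤ δ / σ := by
    rw [le_div_iff₀ hσ]
    have : σ ≤ δ / L := min_le_left _ _
    rw [le_div_iff₀ hL0] at this
    linarith
  have hσ1 : σ ≤ 1 := (min_le_right _ _).trans (min_le_left _ _)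
  have hσy : σ * (8 * (|y| + 1)) ≤ ε := by
    have : σ ≤ ε / (8 * (|y| + 1)) := (min_le_right _ _).trans (min_le_right _ _)
    rwa [le_div_iff₀ (by positivity)] at this
  have hη : Ph (-(δ / σ)) ≤ ε / 8 := (hG.2.2.2.1 (by linarith)).trans hL
  -- comparison of the limits
  have hroot : 1 ≤ √(σ ^ 2 + 1) := by
    apply Real.le_sqrt_of_sq_le
    nlinarith [sq_nonneg σ]
  have hroot2 : √(σ ^ 2 + 1) ≤ 1 + σ ^ 2 := by
    rw [show 1 + σ ^ 2 = √((1 + σ ^ 2) ^ 2) by rw [Real.sqrt_sq (by positivity)]]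
    apply Real.sqrt_le_sqrt
    nlinarith [sq_nonneg σ, sq_nonneg (σ ^ 2)]
  have hlim : ∀ z : ℝ, |z - y| ≤ δ → |Ph (-z / √(σ ^ 2 + 1)) - Ph (-y)| ≤ ε / 8 := by
    intro z hz
    refine (Ph_lip hG _ _).trans ?_
    have h1 : |-z / √(σ ^ 2 + 1) - -y| ≤ δ + ε / 8 := by
      have hr0 : 0 < √(σ ^ 2 + 1) := by linarith
      have e1 : -z / √(σ ^ 2 + 1) - -y = -(z - y) / √(σ ^ 2 + 1) +
          y * ((√(σ ^ 2 + 1) - 1) / √(σ ^ 2 + 1)) := by
        field_simp
        ring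
      rw [e1]
      have e2 : |-(z - y) / √(σ ^ 2 + 1)| ≤ δ := by
        rw [abs_div, abs_neg, abs_of_pos hr0, div_le_iff₀ hr0]
        nlinarith [abs_nonneg (z - y)]
      have e3 : |y * ((√(σ ^ 2 + 1) - 1) / √(σ ^ 2 + 1))| ≤ ε / 8 := by
        rw [abs_mul, abs_of_nonneg (div_nonneg (by linarith) hr0.le)]
        have e4 : (√(σ ^ 2 + 1) - 1) / √(σ ^ 2 + 1) ≤ σ := by
          rw [div_le_iff₀ hr0]
          nlinarith
        calc |y| * ((√(σ ^ 2 + 1) - 1) / √(σ ^ 2 + 1)) ≤ |y| * σ :=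
              mul_le_mul_of_nonneg_left e4 (abs_nonneg y)
          _ ≤ ε / 8 := by nlinarith [abs_nonneg y]
      exact (abs_add_le _ _).trans (add_le_add e2 e3)
    rw [hδ] at h1
    linarith
  have w1 := whp_smooth hG hGS σ hσ b (y + δ) (ε / 8) (by linarith)
  have w2 := whp_smooth hG hGS σ hσ b (y - δ) (ε / 8) (by linarith)
  refine (w1.and w2).mono 0 ?_
  intro n _ S ρ G _ _ h
  obtain ⟨h1, h2⟩ := h
  have hA : (0 : ℝ) ≤ (grp b S).card := Nat.cast_nonneg _
  have hcount : (((grp b S).filter (fun a => y ≤ cn n * Xs S ρ 0 G a)).card : ℝ) =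
      ∑ a ∈ grp b S, (if y ≤ cn n * Xs S ρ 0 G a then 1 else 0 : ℝ) := by
    rw [card_filter]
    push_cast
    rfl
  have hlow : ∑ a ∈ grp b S, (Ph ((cn n * Xs S ρ 0 G a - (y + δ)) / σ) - Ph (-(δ / σ))) ≤
      ∑ a ∈ grp b S, (if y ≤ cn n * Xs S ρ 0 G a then 1 else 0 : ℝ) :=
    sum_le_sum fun a _ => (sandwich hG hσ y _).1
  have hup : ∑ a ∈ grp b S, (if y ≤ cn n * Xs S ρ 0 G a then 1 else 0 : ℝ) ≤
      ∑ a ∈ grp b S, (Ph ((cn n * Xs S ρ 0 G a - (y - δ)) / σ) + Ph (-(δ / σ))) :=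
    sum_le_sum fun a _ => (sandwich hG hσ y _).2
  rw [sum_sub_distrib, sum_const, nsmul_eq_mul] at hlow
  rw [sum_add_distrib, sum_const, nsmul_eq_mul] at hup
  have l1 := abs_le.mp (hlim (y + δ) (by rw [add_sub_cancel_left, abs_of_pos hδ0]))
  have l2 := abs_le.mp (hlim (y - δ) (by
    rw [sub_sub_cancel_left, abs_neg, abs_of_pos hδ0]))
  rw [abs_le] at h1 h2
  rw [hcount, abs_le]
  set A : ℝ := ((grp b S).card : ℝ) with hAdef
  have k1 := mul_le_mul_of_nonneg_left hη hA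
  have k2 := mul_le_mul_of_nonneg_left l1.1 hA
  have k3 := mul_le_mul_of_nonneg_left l2.2 hA
  have k4 : 0 ≤ ε * A := by positivity
  constructor
  · nlinarith
  · nlinarith

theorem cnt (hG : S_Gauss) (hGS : S_GStep) : S_Cnt := by
  intro y ε hε
  have w1 := whp_count hG hGS false y (ε / 2) (by linarith)
  have w2 := whp_count hG hGS true y (ε / 2) (by linarith)
  obtain ⟨N, hN⟩ := exists_nat_gt ((2 / ε) ^ 2)
  refine (w1.and w2).mono (max N 64) ?_
  intro n hn S ρ G hS _ h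
  obtain ⟨h1, h2⟩ := h
  have hnN : N ≤ n := (le_max_left _ _).trans hn
  have hn64 : 64 ≤ n := (le_max_right _ _).trans hn
  obtain ⟨hs8, hk1, hk2, hsub, _⟩ := facts n hn64
  have hspos : 0 < √(n : ℝ) := by linarith
  have hsq : √(n : ℝ) ^ 2 = n := Real.sq_sqrt (Nat.cast_nonneg n)
  have hsN : 2 / ε ≤ √(n : ℝ) := by
    apply Real.le_sqrt_of_sq_le
    exact hN.le.trans (by exact_mod_cast hnN)
  rw [div_le_iff₀ hε] at hsN
  have hPh := hG.2.2.2.2.1 (-y)
  have hScard : (univ \ S).card = n - Nat.sqrt n := by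
    rw [card_sdiff_of_subset (subset_univ S), hS, card_univ, Fintype.card_fin]
  have f1 : univ.filter (fun a => a ∉ S ∧
      y ≤ √(n : ℝ) / ((n - Nat.sqrt n : ℕ) : ℝ) * Xs S ρ 0 G a) =
      (grp false S).filter (fun a => y ≤ cn n * Xs S ρ 0 G a) := by
    ext a
    simp [grp, cn]
  have f2 : univ.filter (fun a => a ∈ S ∧
      y ≤ √(n : ℝ) / ((n - Nat.sqrt n : ℕ) : ℝ) * Xs S ρ 0 G a) =
      (grp true S).filter (fun a => y ≤ cn n * Xs S ρ 0 G a) := by
    ext a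
    simp [grp, cn]
  rw [f1, f2]
  have c1 : ((grp false S).card : ℝ) = (n : ℝ) - Nat.sqrt n := by
    have : grp false S = univ \ S := rfl
    rw [this, hScard, hsub]
  have c2 : ((grp true S).card : ℝ) = (Nat.sqrt n : ℝ) := by
    have : grp true S = S := rfl
    rw [this, hS]
  rw [c1, abs_le] at h1
  rw [c2, abs_le] at h2
  set k : ℝ := (Nat.sqrt n : ℝ) with hk
  have hk0 : 0 ≤ k := Nat.cast_nonneg _
  set s := √(n : ℝ) with hs
  have hks : k ≤ ε / 2 * n := by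
    have : s * 2 ≤ s * (s * ε) := mul_le_mul_of_nonneg_left hsN hspos.le
    have e : ε / 2 * n = s * (s * ε) / 2 := by rw [← hsq]; ring
    rw [e]
    linarith
  have p1 : Ph (-y) * k ≤ k := by
    calc Ph (-y) * k ≤ 1 * k := mul_le_mul_of_nonneg_right hPh.2.le hk0
      _ = k := one_mul k
  have p2 : 0 ≤ Ph (-y) * k := mul_nonneg hPh.1.le hk0
  have p3 : Ph (-y) * (s - k) ≤ 1 := by
    calc Ph (-y) * (s - k) ≤ 1 * 1 :=
          mul_le_mul hPh.2.le (by linarith) (by linarith) zero_le_one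
      _ = 1 := one_mul 1
  have p4 : 0 ≤ Ph (-y) * (s - k) := mul_nonneg hPh.1.le (by linarith)
  have p5 : 0 ≤ ε * k := mul_nonneg hε.le hk0
  have p6 : ε * k ≤ ε * s := mul_le_mul_of_nonneg_left hk1 hε.le
  rw [abs_le, abs_le]
  refine ⟨⟨?_, ?_⟩, ⟨?_, ?_⟩⟩
  · linarith [h1.1]
  · linarith [h1.2]
  · linarith [h2.1]
  · linarith [h2.2]

end

end Pool.Agent.W362.PK.CNT
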